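import Pool.Agent.H60.Flow.Flow

/-!
# Definitions for MP_e87df5_co

`Ω` is `Finset (Fin n)`.
-/

set_option autoImplicit false

open Finset

namespace Pool.Agent.H60.Flow

/-- The Fourier-Walsh coefficient `2^{-n} ∑_A f(A) (-1)^{|A ∩ S|}`. -/
noncomputable def fw {n : ℕ} (f : Finset (Fin n) → ℝ) (S : Finset (Fin n)) : ℝ :=
  (∑ A, f A * (-1) ^ (A ∩ S).card) / 2 ^ n

/-- `λ_i`, the sum of the squares `fw f S ^ 2` over the nonempty `S` with `max S = i`. -/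
noncomputable def lam {n : ℕ} (f : Finset (Fin n) → ℝ) (i : Fin n) : ℝ :=
  ∑ S ∈ univ.filter (fun S : Finset (Fin n) => S.max = (i : WithBot (Fin n))), fw f S ^ 2

/-- `∑ i, λ_i χ_i`. -/
noncomputable def til {n : ℕ} (f : Finset (Fin n) → ℝ) (A : Finset (Fin n)) : ℝ := ∑ i ∈ A, lam f i

/-- `max(f(A), 0)^2`. -/
noncomputable def sqp {n : ℕ} (f : Finset (Fin n) → ℝ) (A : Finset (Fin n)) : ℝ := (max (f A) 0) ^ 2

/-- The mean `2^{-n} ∑_A f(A)`. -/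
noncomputable def mean {n : ℕ} (f : Finset (Fin n) → ℝ) : ℝ := (∑ A, f A) / 2 ^ n

/-- `f` is antipodal. -/
def Antip {n : ℕ} (f : Finset (Fin n) → ℝ) : Prop := ∀ A, f Aᶜ = - f A

end Pool.Agent.H60.Flow
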