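import Pool.Agent.H60.Flow.Main
import Pool.Agent.H60.Flow.Defs

/-!
# From the covariance inequality to flows
-/

set_option autoImplicit false
set_option linter.unusedSectionVars false

open Finset

namespace Pool.Agent.H60.Flow

section

variable {n : ℕ}

theorem mean_eq (f : Finset (Fin n) → ℝ) : mean f = av f := by
  unfold mean av; rw [Fintype.card_fin]

theorem ch_eq (S A : Finset (Fin n)) : ch S A = (-1) ^ S.card * (-1) ^ (A ∩ S).card := by
  unfold ch sg
  rw [Finset.prod_ite, Finset.prod_const_one, one_mul, Finset.prod_const]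
  have h1 : (S.filter (fun i => i ∉ A)).card + (A ∩ S).card = S.card := by
    have := Finset.card_filter_add_card_filter_not (s := S) (fun i => i ∈ A)
    have h2 : S.filter (fun i => i ∈ A) = A ∩ S := by
      ext x; simp only [Finset.mem_filter, Finset.mem_inter]; tauto
    rw [h2] at this
    omega
  rw [← h1, pow_add]
  have h3 : ((-1 : ℝ) ^ (A ∩ S).card) * (-1) ^ (A ∩ S).card = 1 := by
    rw [← mul_pow]; norm_num
  linear_combination (-((-1 : ℝ) ^ (S.filter (fun i => i ∉ A)).card)) * h3

theorem fw_sq (f : Finset (Fin n) → ℝ) (S : Finset (Fin n)) : fw f S ^ 2 = hat f S ^ 2 := by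
  have : hat f S = (-1) ^ S.card * fw f S := by
    unfold hat av fw
    rw [Fintype.card_fin, ← mul_div_assoc, Finset.mul_sum]
    congr 1
    refine Finset.sum_congr rfl fun A _ => ?_
    show f A * ch S A = _
    rw [ch_eq]; ring
  rw [this, mul_pow, neg_one_pow_sq, one_mul]

theorem lam_nonneg (f : Finset (Fin n) → ℝ) (i : Fin n) : 0 ≤ lam f i :=
  Finset.sum_nonneg fun _ _ => sq_nonneg _

theorem til_nonneg (f : Finset (Fin n) → ℝ) (A : Finset (Fin n)) : 0 ≤ til f A :=
  Finset.sum_nonneg fun _ _ => lam_nonneg _ _

/-- Sorting the squares by the largest element. -/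
theorem sum_lam_mul (f : Finset (Fin n) → ℝ) (c : Fin n → ℝ) :
    ∑ i, lam f i * c i = ∑ S : Finset (Fin n), (if h : S.Nonempty then c (S.max' h) else 0) * hat f S ^ 2 := by
  unfold lam
  simp only [Finset.sum_filter, Finset.sum_mul, ite_mul, zero_mul]
  rw [Finset.sum_comm]
  refine Finset.sum_congr rfl fun S _ => ?_
  by_cases h : S.Nonempty
  · have hm : ∀ i : Fin n, S.max = (i : WithBot (Fin n)) ↔ i = S.max' h := by
      intro i
      rw [← Finset.coe_max' h]
      constructor
      · intro h; exact (WithBot.coe_injective h).symm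
      · intro h; rw [h]
    simp only [hm, Finset.sum_ite_eq', Finset.mem_univ, if_true, dif_pos h, fw_sq]
    ring
  · have h0 : S = ∅ := Finset.not_nonempty_iff_eq_empty.1 h
    subst h0
    simp

theorem sum_lam (f : Finset (Fin n) → ℝ) : ∑ i, lam f i = av (fun A => f A ^ 2) - av f ^ 2 := by
  have h1 := sum_lam_mul f (fun _ => 1)
  simp only [mul_one] at h1
  rw [h1, ← parseval]
  have h2 : ∑ S : Finset (Fin n), (if h : S.Nonempty then (1 : ℝ) else 0) * hat f S ^ 2 =
      ∑ S, hat f S ^ 2 - ∑ S : Finset (Fin n), (if S = ∅ then hat f S ^ 2 else 0) := by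
    rw [← Finset.sum_sub_distrib]
    refine Finset.sum_congr rfl fun S _ => ?_
    by_cases h : S.Nonempty
    · simp [h, h.ne_empty]
    · have h0 : S = ∅ := Finset.not_nonempty_iff_eq_empty.1 h
      subst h0; simp
  rw [h2]
  simp [hat_empty]

theorem sum_lam_kap_le (f : Finset (Fin n) → ℝ) (K : Finset (Fin n) → ℝ) :
    ∑ i, lam f i * kap K i ≤ En (kap K) f := by
  rw [sum_lam_mul]
  unfold En
  refine Finset.sum_le_sum fun S _ => mul_le_mul_of_nonneg_right ?_ (sq_nonneg _)
  split_ifs with h
  · exact le_Mx _ (Finset.max'_mem S h)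
  · exact Mx_nonneg _ _

/-- The mean of `K χ_i`. -/
theorem av_mul_ind (K : Finset (Fin n) → ℝ) (i : Fin n) :
    av (fun A => K A * (if i ∈ A then 1 else 0)) = (av K + kap K i) / 2 := by
  unfold kap hat
  rw [← av_add, div_eq_mul_inv, ← av_mul_right]
  refine av_congr fun A => ?_
  simp only [ch, Finset.prod_singleton, sg]
  split_ifs <;> ring

theorem av_mul_til (K f : Finset (Fin n) → ℝ) :
    av (fun A => K A * til f A) = ((av (fun A => f A ^ 2) - av f ^ 2) * av K + ∑ i, lam f i * kap K i) / 2 := by
  have h1 : ∀ A : Finset (Fin n), K A * til f A = ∑ i, lam f i * (K A * (if i ∈ A then 1 else 0)) := by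
    intro A
    unfold til
    have : ∑ i ∈ A, lam f i = ∑ i, if i ∈ A then lam f i else 0 := by simp
    rw [this, Finset.mul_sum]
    refine Finset.sum_congr rfl fun i _ => ?_
    split_ifs <;> ring
  have h2 : av (fun A => K A * til f A) = ∑ i, lam f i * av (fun A => K A * (if i ∈ A then 1 else 0)) := by
    rw [av_congr h1]
    unfold av
    rw [Finset.sum_comm, Finset.sum_div]
    refine Finset.sum_congr rfl fun i _ => ?_
    rw [← Finset.mul_sum, mul_div_assoc]
  rw [h2]
  simp only [av_mul_ind]
  rw [← sum_lam, Finset.sum_mul, ← Finset.sum_add_distrib, Finset.sum_div]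
  exact Finset.sum_congr rfl fun i _ => by ring

theorem sum_eq_av (f : Finset (Fin n) → ℝ) : ∑ A, f A = 2 ^ n * av f := by
  unfold av; rw [Fintype.card_fin]; field_simp

/-- Flows from inequalities of means. -/
theorem flows_of_av {g h : Finset (Fin n) → ℝ} (hg : ∀ A, 0 ≤ g A) (hh : ∀ A, 0 ≤ h A)
    (H : ∀ K : Finset (Fin n) → ℝ, Monotone K → av (fun A => K A * g A) ≤ av (fun A => K A * h A)) :
    Flows g h := by
  refine flows_of_le hg hh fun K hK => ?_
  rw [sum_eq_av, sum_eq_av]
  exact mul_le_mul_of_nonneg_left (H K hK) (by positivity)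

/-- **Squares of nonnegative nondecreasing functions.** -/
theorem squareFlow (u : Finset (Fin n) → ℝ) (hu0 : ∀ A, 0 ≤ u A) (hu : Monotone u) :
    Flows (fun A => mean u ^ 2 + 2 * til u A) (fun A => u A ^ 2) := by
  refine flows_of_av (fun A => ?_) (fun A => sq_nonneg _) fun K hK => ?_
  · have := til_nonneg u A
    positivity
  · have h1 := main u K hu0 hu hK
    have h2 := sum_lam_kap_le u K
    have h3 : av (fun A => K A * (mean u ^ 2 + 2 * til u A)) = mean u ^ 2 * av K + 2 * av (fun A => K A * til u A) := by
      rw [← av_mul_left, ← av_mul_left, ← av_add]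
      exact av_congr fun A => by ring
    rw [h3, av_mul_til, mean_eq]
    unfold cov at h1
    have h4 : av (fun A => K A * u A ^ 2) = av (fun A => u A ^ 2 * K A) := av_congr fun A => by ring
    rw [h4]
    linarith

theorem max_sq_add (x : ℝ) : (max x 0) ^ 2 + (max (-x) 0) ^ 2 = x ^ 2 := by
  rcases le_total x 0 with h | h
  · rw [max_eq_right h, max_eq_left (by linarith)]; ring
  · rw [max_eq_left h, max_eq_right (by linarith)]; ring

theorem av_sqp {f : Finset (Fin n) → ℝ} (hf : Antip f) : av (sqp f) = av (fun A => f A ^ 2) / 2 := by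
  have h1 : av (sqp f) = av (fun A => (max (- f A) 0) ^ 2) := by
    rw [← av_compl (sqp f)]
    refine av_congr fun A => ?_
    unfold sqp; rw [hf A]
  have h2 : av (sqp f) + av (fun A => (max (- f A) 0) ^ 2) = av (fun A => f A ^ 2) := by
    rw [← av_add]
    exact av_congr fun A => max_sq_add (f A)
  linarith

theorem hat_odd {f : Finset (Fin n) → ℝ} (hf : Antip f) {T : Finset (Fin n)} (hT : Even T.card) : hat f T = 0 := by
  have h1 := hat_compl f T
  have h2 : hat (fun A => f Aᶜ) T = - hat f T := by
    rw [← hat_neg]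
    congr 1
    funext A
    exact hf A
  rw [h2, hT.neg_one_pow] at h1
  linarith

theorem hat_even {f : Finset (Fin n) → ℝ} (hf : ∀ A, f Aᶜ = f A) {T : Finset (Fin n)} (hT : ¬ Even T.card) :
    hat f T = 0 := by
  have h1 := hat_compl f T
  have h2 : hat (fun A => f Aᶜ) T = hat f T := by
    congr 1
    funext A
    exact hf A
  rw [h2, (Nat.not_even_iff_odd.1 hT).neg_one_pow] at h1
  linarith

/-- **Half of the conjectured flow, for every nondecreasing antipodal function.** -/
theorem halfFlow (f : Finset (Fin n) → ℝ) (hf : Monotone f) (ha : Antip f) :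
    Flows (fun A => (til f A + til (fun B => |f B|) A) / 2 + mean (fun B => |f B|) ^ 2 / 4) (sqp f) := by
  refine flows_of_av (fun A => ?_) (fun A => sq_nonneg _) fun K hK => ?_
  · have h1 := til_nonneg f A
    have h2 := til_nonneg (fun B => |f B|) A
    positivity
  · set u : Finset (Fin n) → ℝ := fun A => max (f A) 0 with hu
    have h1 := main u K (fun A => le_max_right _ _) (fun A B hAB => max_le_max (hf hAB) le_rfl) hK
    have h2 := sum_lam_kap_le f K
    have h3 := sum_lam_kap_le (fun B => |f B|) K
    have h4 : En (kap K) u = (En (kap K) f + En (kap K) (fun B => |f B|)) / 4 := by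
      unfold En
      rw [← Finset.sum_add_distrib, Finset.sum_div]
      refine Finset.sum_congr rfl fun T _ => ?_
      have e1 : hat u T = (hat f T + hat (fun B => |f B|) T) / 2 := by
        rw [← hat_add, div_eq_inv_mul, ← hat_mul_left]
        congr 1
        funext A
        show max (f A) 0 = _
        rw [max_def]
        split_ifs with h
        · rw [abs_of_nonpos h]; ring
        · rw [abs_of_pos (lt_of_not_ge h)]; ring
      by_cases hT : Even T.card
      · rw [e1, hat_odd ha hT]; ring
      · have : hat (fun B => |f B|) T = 0 := hat_even (fun A => by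
          show |f Aᶜ| = |f A|
          rw [ha A, abs_neg]) hT
        rw [e1, this]; ring
    have h5 : av (fun A => K A * ((til f A + til (fun B => |f B|) A) / 2 + mean (fun B => |f B|) ^ 2 / 4)) =
        (av (fun A => K A * til f A) + av (fun A => K A * til (fun B => |f B|) A)) / 2 +
          mean (fun B => |f B|) ^ 2 / 4 * av K := by
      rw [← av_add, div_eq_mul_inv (av _) 2, ← av_mul_right, ← av_mul_left, ← av_add]
      exact av_congr fun A => by ring
    have h6 : av f = 0 := by
      have := hat_odd ha (T := ∅) (by simp)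
      rwa [hat_empty] at this
    have h7 : av (fun A => |f A| ^ 2) = av (fun A => f A ^ 2) := av_congr fun A => sq_abs _
    have h8 := av_sqp ha
    have h9 : av (fun A => K A * sqp f A) = av (fun A => u A ^ 2 * K A) := av_congr fun A => by
      unfold sqp; rw [hu]; ring
    have h10 : av (fun A => u A ^ 2) = av (sqp f) := rfl
    rw [h5, av_mul_til, av_mul_til, mean_eq, h6, h7, h9]
    unfold cov at h1
    rw [h10, h8, h4] at h1
    linarith

/-- **The conjectured flow for functions that are nonnegative on a dictator.** -/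
theorem dictFlow (f : Finset (Fin n) → ℝ) (hf : Monotone f) (ha : Antip f) (j : Fin n)
    (hj : ∀ A, j ∈ A → 0 ≤ f A) : Flows (til f) (sqp f) := by
  refine flows_of_av (fun A => til_nonneg f A) (fun A => sq_nonneg _) fun K hK => ?_
  set u : Finset (Fin n) → ℝ := fun A => f (insert j A) with hu
  set Kp : Finset (Fin n) → ℝ := fun A => K (insert j A) with hKp
  have hu0 : ∀ A, 0 ≤ u A := fun A => hj _ (Finset.mem_insert_self j A)
  have h1 := main u Kp hu0 (monotone_insert hf j) (monotone_insert hK j)
  have hfe : ∀ A : Finset (Fin n), f (A.erase j) = - u Aᶜ := by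
    intro A
    have h2 := ha (insert j Aᶜ)
    have h3 : (insert j Aᶜ)ᶜ = A.erase j := by
      ext x; simp only [Finset.mem_compl, Finset.mem_insert, Finset.mem_erase]; tauto
    rw [h3] at h2
    exact h2
  have hud : Dep (univ.erase j) u := by
    intro i hi A
    have : i = j := by simpa using hi
    subst this
    show f (insert i (insert i A)) = f (insert i A)
    rw [Finset.insert_idem]
  -- means
  have m1 : av (fun A => K A * sqp f A) = av (fun A => u A ^ 2 * Kp A) / 2 := by
    rw [av_pm j, div_eq_mul_inv (av _) 2, ← av_mul_right]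
    refine av_congr fun A => ?_
    have e1 : sqp f (insert j A) = u A ^ 2 := by
      unfold sqp; rw [max_eq_left (hu0 A)]
    have e2 : sqp f (A.erase j) = 0 := by
      unfold sqp
      rw [hfe, max_eq_right (by linarith [hu0 Aᶜ])]; ring
    rw [e1, e2]
    show (K (insert j A) * u A ^ 2 + K (A.erase j) * 0) / 2 = u A ^ 2 * K (insert j A) * 2⁻¹
    ring
  have m2 : av (fun A => f A ^ 2) = av (fun A => u A ^ 2) := by
    rw [av_pm j]
    have e : ∀ A : Finset (Fin n), (f (insert j A) ^ 2 + f (A.erase j) ^ 2) / 2 =
        u A ^ 2 * (1 / 2) + u Aᶜ ^ 2 * (1 / 2) := by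
      intro A
      rw [hfe]
      show (f (insert j A) ^ 2 + (- u Aᶜ) ^ 2) / 2 = f (insert j A) ^ 2 * (1 / 2) + u Aᶜ ^ 2 * (1 / 2)
      ring
    rw [av_congr e, av_add, av_mul_right, av_mul_right]
    have := av_compl (fun A => u A ^ 2)
    rw [this]; ring
  have m3 : av K = av Kp - kap K j := by
    rw [kap_eq, ← av_sub, av_pm j]
    refine av_congr fun A => ?_
    show _ = K (insert j A) - _
    ring
  have m4 : av f = 0 := by
    have := hat_odd ha (T := ∅) (by simp)
    rwa [hat_empty] at this
  -- the energy
  have hle : ∀ i, i ≠ j → kap K i ≤ kap Kp i + kap K j := by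
    intro i hij
    have e1 := kap_avg K hij
    have e2 : kap Kp i - kap (fun A : Finset (Fin n) => K (A.erase j)) i + 2 * kap K j =
        av (fun A => (K (insert j A) - K (A.erase j)) * (1 + sg A i)) := by
      unfold kap
      rw [← hat_sub]
      have e3 : hat K {j} = av (fun A => (K (insert j A) - K (A.erase j)) / 2) := kap_eq K j
      rw [e3]
      unfold hat
      rw [← av_mul_left, ← av_add]
      refine av_congr fun A => ?_
      simp only [ch, Finset.prod_singleton, hKp]
      ring
    have e3 : 0 ≤ av (fun A => (K (insert j A) - K (A.erase j)) * (1 + sg A i)) := by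
      refine av_nonneg fun A => mul_nonneg ?_ ?_
      · have := hK ((Finset.erase_subset j A).trans (Finset.subset_insert j A))
        linarith
      · unfold sg; split_ifs <;> norm_num
    have e4 : kap (fun A : Finset (Fin n) => K (insert j A)) i = kap Kp i := rfl
    rw [e4] at e1
    linarith
  have hkj := kap_nonneg hK j
  have hMx : ∀ T : Finset (Fin n), Mx (kap K) T ≤ Mx (kap Kp) (T.erase j) + kap K j := by
    intro T
    have := Mx_nonneg (kap Kp) (T.erase j)
    refine Mx_le (by linarith) fun i hi => ?_
    by_cases hij : i = j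
    · rw [hij]; linarith
    · have h2 := le_Mx (kap Kp) (Finset.mem_erase.2 ⟨hij, hi⟩)
      have h3 := hle i hij
      linarith
  have hpair : ∀ T : Finset (Fin n), j ∉ T → hat f T ^ 2 + hat f (insert j T) ^ 2 = hat u T ^ 2 := by
    intro T hT
    have e1 : hat f T = (hat u T - (-1) ^ T.card * hat u T) / 2 := by
      rw [hat_of_notMem hT, ← hat_compl, ← hat_sub, div_eq_inv_mul, ← hat_mul_left]
      congr 1
      funext A
      rw [hfe]
      show (f (insert j A) + - u Aᶜ) / 2 = 2⁻¹ * (f (insert j A) - u Aᶜ)
      ring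
    have e2 : hat f (insert j T) = (hat u T + (-1) ^ T.card * hat u T) / 2 := by
      rw [hat_of_mem (Finset.mem_insert_self j T), Finset.erase_insert hT, ← hat_compl, ← hat_add,
        div_eq_inv_mul, ← hat_mul_left]
      congr 1
      funext A
      rw [hfe]
      show (f (insert j A) - - u Aᶜ) / 2 = 2⁻¹ * (f (insert j A) + u Aᶜ)
      ring
    have e3 := neg_one_pow_sq T.card
    rw [e1, e2]
    linear_combination (hat u T ^ 2 / 2) * e3
  have hE : En (kap K) f ≤ En (kap Kp) u + kap K j * av (fun A => u A ^ 2) := by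
    have s1 : En (kap K) f = ∑ T ∈ univ.filter (fun T => j ∉ T), (Mx (kap K) T * hat f T ^ 2 +
        Mx (kap K) (insert j T) * hat f (insert j T) ^ 2) := by
      unfold En
      rw [Finset.sum_add_distrib, ← Finset.sum_filter_add_sum_filter_not univ (fun T => j ∈ T), add_comm]
      congr 1
      refine Finset.sum_bij' (fun T _ => T.erase j) (fun T _ => insert j T) ?_ ?_ ?_ ?_ ?_
      · intro T _; simp
      · intro T _; simp
      · intro T hT; exact Finset.insert_erase (Finset.mem_filter.1 hT).2
      · intro T hT; exact Finset.erase_insert (Finset.mem_filter.1 hT).2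
      · intro T hT
        rw [Finset.insert_erase (Finset.mem_filter.1 hT).2]
    have s2 : En (kap K) f ≤ ∑ T ∈ univ.filter (fun T => j ∉ T), (Mx (kap Kp) T + kap K j) * hat u T ^ 2 := by
      rw [s1]
      refine Finset.sum_le_sum fun T hT => ?_
      have hjT : j ∉ T := (Finset.mem_filter.1 hT).2
      rw [← hpair T hjT]
      have b1 := hMx T
      have b2 := hMx (insert j T)
      rw [Finset.erase_eq_of_notMem hjT] at b1
      rw [Finset.erase_insert hjT] at b2
      have b3 := mul_le_mul_of_nonneg_right b1 (sq_nonneg (hat f T))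
      have b4 := mul_le_mul_of_nonneg_right b2 (sq_nonneg (hat f (insert j T)))
      linarith
    have s3 : ∑ T ∈ univ.filter (fun T => j ∉ T), (Mx (kap Kp) T + kap K j) * hat u T ^ 2 =
        ∑ T, (Mx (kap Kp) T + kap K j) * hat u T ^ 2 := by
      rw [Finset.sum_filter]
      refine Finset.sum_congr rfl fun T _ => ?_
      by_cases h : j ∈ T
      · rw [hud.hat_eq_zero h (Finset.notMem_erase j univ)]; simp
      · rw [if_pos h]
    rw [s3] at s2
    refine s2.trans (le_of_eq ?_)
    simp only [add_mul, Finset.sum_add_distrib, ← Finset.mul_sum]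
    rw [parseval]
    rfl
  have h2 := sum_lam_kap_le f K
  rw [av_mul_til, m1, m2, m3, m4]
  unfold cov at h1
  nlinarith

end

end Pool.Agent.H60.Flow
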