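import Mathlib

/-!
# Fourier analysis on the cube of subsets

`sg A i = 1` if `i ∈ A`, `-1` otherwise; `ch T A = ∏ i ∈ T, sg A i`; `av f` is the mean of `f`, `hat f T = av (f * ch T)`.
-/

set_option autoImplicit false
set_option linter.unusedSectionVars false

open Finset

namespace Pool.Agent.H60.Flow

variable {ι : Type*} [Fintype ι] [DecidableEq ι]

/-- The sign of `i` in `A`. -/
def sg (A : Finset ι) (i : ι) : ℝ := if i ∈ A then 1 else -1

/-- The character of `T`. -/
def ch (T A : Finset ι) : ℝ := ∏ i ∈ T, sg A i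

/-- The mean. -/
noncomputable def av (f : Finset ι → ℝ) : ℝ := (∑ A, f A) / 2 ^ Fintype.card ι

/-- Fourier coefficient. -/
noncomputable def hat (f : Finset ι → ℝ) (T : Finset ι) : ℝ := av (fun A => f A * ch T A)

theorem sg_sq (A : Finset ι) (i : ι) : sg A i * sg A i = 1 := by
  unfold sg; split_ifs <;> norm_num

theorem ch_sq (T A : Finset ι) : ch T A * ch T A = 1 := by
  unfold ch; rw [← Finset.prod_mul_distrib]; simp [sg_sq]

theorem card_pos' : (0 : ℝ) < 2 ^ Fintype.card ι := by positivity

theorem av_add (f g : Finset ι → ℝ) : av (fun A => f A + g A) = av f + av g := by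
  unfold av; rw [Finset.sum_add_distrib, add_div]

theorem av_sub (f g : Finset ι → ℝ) : av (fun A => f A - g A) = av f - av g := by
  unfold av; rw [Finset.sum_sub_distrib, sub_div]

theorem av_mul_left (c : ℝ) (f : Finset ι → ℝ) : av (fun A => c * f A) = c * av f := by
  unfold av; rw [← Finset.mul_sum, mul_div_assoc]

theorem av_mul_right (c : ℝ) (f : Finset ι → ℝ) : av (fun A => f A * c) = av f * c := by
  unfold av; rw [← Finset.sum_mul, div_mul_eq_mul_div]

theorem av_neg (f : Finset ι → ℝ) : av (fun A => - f A) = - av f := by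
  unfold av; rw [Finset.sum_neg_distrib, neg_div]

theorem av_const (c : ℝ) : av (fun _ : Finset ι => c) = c := by
  unfold av
  rw [Finset.sum_const, Finset.card_univ, Fintype.card_finset, nsmul_eq_mul]
  push_cast
  field_simp

theorem av_congr {f g : Finset ι → ℝ} (h : ∀ A, f A = g A) : av f = av g := by
  unfold av; simp only [h]

theorem av_mono {f g : Finset ι → ℝ} (h : ∀ A, f A ≤ g A) : av f ≤ av g := by
  unfold av
  exact div_le_div_of_nonneg_right (Finset.sum_le_sum fun A _ => h A) card_pos'.le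

theorem av_nonneg {f : Finset ι → ℝ} (h : ∀ A, 0 ≤ f A) : 0 ≤ av f := by
  unfold av
  exact div_nonneg (Finset.sum_nonneg fun A _ => h A) card_pos'.le

theorem av_compl (f : Finset ι → ℝ) : av (fun A => f Aᶜ) = av f := by
  unfold av
  congr 1
  exact Equiv.sum_comp (Equiv.mk (fun A : Finset ι => Aᶜ) (fun A => Aᶜ) (fun A => compl_compl A)
    (fun A => compl_compl A)) f

theorem sum_pm (j : ι) (f : Finset ι → ℝ) :
    2 * ∑ A, f A = ∑ A : Finset ι, (f (insert j A) + f (A.erase j)) := by
  have h1 : ∀ A : Finset ι, f (insert j A) + f (A.erase j) =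
      f A + f (symmDiff A {j}) := by
    intro A
    by_cases hj : j ∈ A
    · have e1 : insert j A = A := Finset.insert_eq_of_mem hj
      have e2 : symmDiff A {j} = A.erase j := by
        ext x; simp only [Finset.mem_symmDiff, Finset.mem_singleton, Finset.mem_erase]
        by_cases hx : x = j
        · subst hx; simp [hj]
        · simp [hx]
      rw [e1, e2]
    · have e1 : A.erase j = A := Finset.erase_eq_of_notMem hj
      have e2 : symmDiff A {j} = insert j A := by
        ext x; simp only [Finset.mem_symmDiff, Finset.mem_singleton, Finset.mem_insert]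
        by_cases hx : x = j
        · subst hx; simp [hj]
        · simp [hx]
      rw [e1, e2, add_comm]
  simp only [h1, Finset.sum_add_distrib]
  have h2 : ∑ A : Finset ι, f (symmDiff A {j}) = ∑ A, f A :=
    Equiv.sum_comp (Equiv.mk (fun A : Finset ι => symmDiff A {j}) (fun A => symmDiff A {j})
      (fun A => by simp) (fun A => by simp)) f
  rw [h2]; ring

theorem av_pm (j : ι) (f : Finset ι → ℝ) :
    av f = av (fun A => (f (insert j A) + f (A.erase j)) / 2) := by
  unfold av
  congr 1
  rw [← Finset.sum_div, ← sum_pm]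
  ring

/-- `f` does not depend on the coordinates outside `S`. -/
def Dep (S : Finset ι) (f : Finset ι → ℝ) : Prop := ∀ j ∉ S, ∀ A, f (insert j A) = f A

theorem Dep.erase {S : Finset ι} {f : Finset ι → ℝ} (h : Dep S f) {j : ι} (hj : j ∉ S)
    (A : Finset ι) : f (A.erase j) = f A := by
  by_cases hA : j ∈ A
  · have := h j hj (A.erase j)
    rw [Finset.insert_erase hA] at this
    exact this.symm
  · rw [Finset.erase_eq_of_notMem hA]

theorem ch_insert_erase {T : Finset ι} {j : ι} (hj : j ∉ T) (A : Finset ι) :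
    ch T (insert j A) = ch T A ∧ ch T (A.erase j) = ch T A := by
  unfold ch
  constructor
  · refine Finset.prod_congr rfl fun i hi => ?_
    have : i ≠ j := fun h => hj (h ▸ hi)
    simp [sg, this]
  · refine Finset.prod_congr rfl fun i hi => ?_
    have : i ≠ j := fun h => hj (h ▸ hi)
    simp [sg, this]

theorem ch_insert {T : Finset ι} {j : ι} (hj : j ∉ T) (A : Finset ι) :
    ch (insert j T) A = sg A j * ch T A := by
  unfold ch; rw [Finset.prod_insert hj]

theorem ch_of_mem {T : Finset ι} {j : ι} (hj : j ∈ T) (A : Finset ι) :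
    ch T A = sg A j * ch (T.erase j) A := by
  unfold ch; rw [Finset.mul_prod_erase T (fun i => sg A i) hj]

theorem ch_insert_of_mem {T : Finset ι} {j : ι} (hj : j ∈ T) (A : Finset ι) :
    ch T (insert j A) = ch (T.erase j) A := by
  rw [ch_of_mem hj, (ch_insert_erase (Finset.notMem_erase j T) A).1]
  simp [sg]

theorem ch_erase_of_mem {T : Finset ι} {j : ι} (hj : j ∈ T) (A : Finset ι) :
    ch T (A.erase j) = - ch (T.erase j) A := by
  rw [ch_of_mem hj, (ch_insert_erase (Finset.notMem_erase j T) A).2]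
  simp [sg]

/-- Fourier coefficients at sets without `j`. -/
theorem hat_of_notMem {T : Finset ι} {j : ι} (hj : j ∉ T) (f : Finset ι → ℝ) :
    hat f T = hat (fun A => (f (insert j A) + f (A.erase j)) / 2) T := by
  unfold hat
  rw [av_pm j]
  refine av_congr fun A => ?_
  rw [(ch_insert_erase hj A).1, (ch_insert_erase hj A).2]
  ring

/-- Fourier coefficients at sets with `j`. -/
theorem hat_of_mem {T : Finset ι} {j : ι} (hj : j ∈ T) (f : Finset ι → ℝ) :
    hat f T = hat (fun A => (f (insert j A) - f (A.erase j)) / 2) (T.erase j) := by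
  unfold hat
  rw [av_pm j]
  refine av_congr fun A => ?_
  rw [ch_insert_of_mem hj, ch_erase_of_mem hj]
  ring

theorem Dep.hat_eq_zero {S : Finset ι} {f : Finset ι → ℝ} (h : Dep S f) {T : Finset ι} {j : ι}
    (hj : j ∈ T) (hS : j ∉ S) : hat f T = 0 := by
  rw [hat_of_mem hj]
  unfold hat
  have : ∀ A, (f (insert j A) - f (A.erase j)) / 2 * ch (T.erase j) A = 0 := by
    intro A; rw [h j hS, h.erase hS]; ring
  rw [av_congr this, av_const]

theorem sg_compl (A : Finset ι) (i : ι) : sg Aᶜ i = - sg A i := by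
  unfold sg; by_cases h : i ∈ A <;> simp [h]

theorem ch_compl (T A : Finset ι) : ch T Aᶜ = (-1) ^ T.card * ch T A := by
  unfold ch
  simp only [sg_compl, Finset.prod_neg]

theorem hat_compl (f : Finset ι → ℝ) (T : Finset ι) :
    hat (fun A => f Aᶜ) T = (-1) ^ T.card * hat f T := by
  unfold hat
  rw [← av_mul_left, ← av_compl (fun A => (-1) ^ T.card * (f A * ch T A))]
  refine av_congr fun A => ?_
  rw [ch_compl]
  have : ((-1 : ℝ) ^ T.card) * (-1) ^ T.card = 1 := by
    rw [← mul_pow]; norm_num
  linear_combination (-(f Aᶜ * ch T A)) * this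

theorem av_ch {T : Finset ι} (hT : T.Nonempty) : av (fun A => ch T A) = 0 := by
  obtain ⟨j, hj⟩ := hT
  rw [av_pm j]
  have : ∀ A : Finset ι, (ch T (insert j A) + ch T (A.erase j)) / 2 = 0 := by
    intro A
    rw [ch_insert_of_mem hj, ch_erase_of_mem hj]; ring
  rw [av_congr this, av_const]

theorem hat_const (c : ℝ) {T : Finset ι} (hT : T.Nonempty) : hat (fun _ => c) T = 0 := by
  unfold hat; rw [av_mul_left, av_ch hT, mul_zero]

theorem hat_empty (f : Finset ι → ℝ) : hat f ∅ = av f := by
  unfold hat ch; simp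

theorem hat_add (f g : Finset ι → ℝ) (T : Finset ι) :
    hat (fun A => f A + g A) T = hat f T + hat g T := by
  unfold hat; rw [← av_add]; exact av_congr fun A => by ring

theorem hat_sub (f g : Finset ι → ℝ) (T : Finset ι) :
    hat (fun A => f A - g A) T = hat f T - hat g T := by
  unfold hat; rw [← av_sub]; exact av_congr fun A => by ring

theorem hat_mul_left (c : ℝ) (f : Finset ι → ℝ) (T : Finset ι) :
    hat (fun A => c * f A) T = c * hat f T := by
  unfold hat; rw [← av_mul_left]; exact av_congr fun A => by ring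

theorem hat_neg (f : Finset ι → ℝ) (T : Finset ι) :
    hat (fun A => - f A) T = - hat f T := by
  unfold hat; rw [← av_neg]; exact av_congr fun A => by ring

/-- The kernel of the projection onto the functions of the coordinates in `B`. -/
def kr (B A A' : Finset ι) : ℝ := ∏ i ∈ B, (1 + sg A i * sg A' i)

theorem kr_nonneg (B A A' : Finset ι) : 0 ≤ kr B A A' := by
  refine Finset.prod_nonneg fun i _ => ?_
  unfold sg; split_ifs <;> norm_num

theorem kr_symm (B A A' : Finset ι) : kr B A A' = kr B A' A := by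
  unfold kr; exact Finset.prod_congr rfl fun i _ => by ring

theorem kr_eq (B A A' : Finset ι) : kr B A A' = ∑ T ∈ B.powerset, ch T A * ch T A' := by
  unfold kr
  rw [Finset.prod_one_add]
  refine Finset.sum_congr rfl fun T _ => ?_
  unfold ch; rw [Finset.prod_mul_distrib]

theorem sum_kr (B A : Finset ι) : ∑ A', kr B A A' = 2 ^ Fintype.card ι := by
  simp only [kr_eq]
  rw [Finset.sum_comm]
  rw [Finset.sum_eq_single_of_mem ∅ (Finset.empty_mem_powerset B)]
  · simp [ch]
  · intro T _ hT
    rw [← Finset.mul_sum]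
    have := av_ch (Finset.nonempty_iff_ne_empty.2 hT)
    unfold av at this
    rw [div_eq_zero_iff] at this
    rcases this with h | h
    · rw [h, mul_zero]
    · exact absurd h card_pos'.ne'

theorem sum_hat_sq (B : Finset ι) (f : Finset ι → ℝ) :
    (2 ^ Fintype.card ι) ^ 2 * ∑ T ∈ B.powerset, hat f T ^ 2 = ∑ A, ∑ A', f A * f A' * kr B A A' := by
  have h1 : ∀ T, (2 ^ Fintype.card ι) ^ 2 * hat f T ^ 2 =
      ∑ A, ∑ A', f A * f A' * (ch T A * ch T A') := by
    intro T
    have : (2 ^ Fintype.card ι) * hat f T = ∑ A, f A * ch T A := by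
      unfold hat av
      field_simp
    rw [← mul_pow, this, sq, Finset.sum_mul_sum]
    exact Finset.sum_congr rfl fun A _ => Finset.sum_congr rfl fun A' _ => by ring
  rw [Finset.mul_sum]
  simp only [h1, kr_eq, Finset.mul_sum]
  rw [Finset.sum_comm]
  refine Finset.sum_congr rfl fun A _ => ?_
  rw [Finset.sum_comm]

theorem kr_univ (A A' : Finset ι) : kr univ A A' = if A = A' then 2 ^ Fintype.card ι else 0 := by
  split_ifs with h
  · subst h
    unfold kr
    simp only [sg_sq]
    rw [Finset.prod_const, Finset.card_univ]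
    norm_num
  · have : ∃ i, ¬ (i ∈ A ↔ i ∈ A') := by
      by_contra hc
      push Not at hc
      exact h (Finset.ext hc)
    obtain ⟨i, hi⟩ := this
    unfold kr
    apply Finset.prod_eq_zero (Finset.mem_univ i)
    unfold sg
    by_cases h1 : i ∈ A <;> by_cases h2 : i ∈ A' <;> simp_all

/-- Parseval. -/
theorem parseval (f : Finset ι → ℝ) : ∑ T, hat f T ^ 2 = av (fun A => f A ^ 2) := by
  have h := sum_hat_sq univ f
  simp only [kr_univ, mul_ite, mul_zero, Finset.sum_ite_eq, Finset.mem_univ, if_true,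
    Finset.powerset_univ] at h
  have hp := card_pos' (ι := ι)
  have h2 : (2 ^ Fintype.card ι : ℝ) ^ 2 * ∑ T, hat f T ^ 2 =
      (2 ^ Fintype.card ι) ^ 2 * av (fun A => f A ^ 2) := by
    rw [h]
    unfold av
    rw [← Finset.sum_mul]
    have : ∑ A, f A * f A = ∑ A, f A ^ 2 := Finset.sum_congr rfl fun A _ => by ring
    rw [this]
    field_simp
  exact mul_left_cancel₀ (by positivity) h2

/-- The part of the energy outside `B` as a Dirichlet form. -/
theorem energy (B : Finset ι) (f : Finset ι → ℝ) :
    ∑ T, (if T ⊆ B then 0 else hat f T ^ 2) =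
      ∑ A, ∑ A', (kr B A A' / (2 * (2 ^ Fintype.card ι) ^ 2)) * (f A - f A') ^ 2 := by
  have hp := card_pos' (ι := ι)
  have h0 : ∑ T, (if T ⊆ B then 0 else hat f T ^ 2) =
      ∑ T, hat f T ^ 2 - ∑ T ∈ B.powerset, hat f T ^ 2 := by
    have : B.powerset = univ.filter (fun T => T ⊆ B) := by ext T; simp
    rw [this, Finset.sum_filter, ← Finset.sum_sub_distrib]
    refine Finset.sum_congr rfl fun T _ => ?_
    split_ifs <;> ring
  rw [h0, parseval]
  have h1 := sum_hat_sq B f
  have h2 : ∑ A, ∑ A', kr B A A' * (f A - f A') ^ 2 =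
      2 * (2 ^ Fintype.card ι) * ∑ A, f A ^ 2 - 2 * ∑ A, ∑ A', f A * f A' * kr B A A' := by
    have e1 : ∑ A, ∑ A', kr B A A' * (f A - f A') ^ 2 =
        ∑ A, ∑ A', kr B A A' * f A ^ 2 + ∑ A, ∑ A', kr B A A' * f A' ^ 2
          - 2 * ∑ A, ∑ A', f A * f A' * kr B A A' := by
      simp only [Finset.mul_sum]
      rw [← Finset.sum_add_distrib, ← Finset.sum_sub_distrib]
      refine Finset.sum_congr rfl fun A _ => ?_
      rw [← Finset.sum_add_distrib, ← Finset.sum_sub_distrib]
      refine Finset.sum_congr rfl fun A' _ => ?_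
      ring
    have e2 : ∑ A, ∑ A', kr B A A' * f A ^ 2 = (2 ^ Fintype.card ι) * ∑ A, f A ^ 2 := by
      rw [Finset.mul_sum]
      refine Finset.sum_congr rfl fun A _ => ?_
      rw [← Finset.sum_mul, sum_kr]
    have e3 : ∑ A, ∑ A', kr B A A' * f A' ^ 2 = (2 ^ Fintype.card ι) * ∑ A, f A ^ 2 := by
      rw [Finset.sum_comm, ← e2]
      exact Finset.sum_congr rfl fun A _ => Finset.sum_congr rfl fun A' _ => by rw [kr_symm]
    rw [e1, e2, e3]; ring
  have h3 : ∑ A, ∑ A', (kr B A A' / (2 * (2 ^ Fintype.card ι) ^ 2)) * (f A - f A') ^ 2 =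
      (∑ A, ∑ A', kr B A A' * (f A - f A') ^ 2) / (2 * (2 ^ Fintype.card ι) ^ 2) := by
    rw [Finset.sum_div]
    refine Finset.sum_congr rfl fun A _ => ?_
    rw [Finset.sum_div]
    exact Finset.sum_congr rfl fun A' _ => by ring
  rw [h3, h2, ← h1]
  unfold av
  field_simp

end Pool.Agent.H60.Flow
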