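import Pool.Agent.H60.Flow.Cube

/-!
# The inequality `Cov(u ^ 2, K) ≥ ∑ T ≠ ∅, hat u T ^ 2 * max {hat K {i} : i ∈ T}` for increasing `u ≥ 0` and increasing `K`
-/

set_option autoImplicit false
set_option linter.unusedSectionVars false

open Finset

namespace Pool.Agent.H60.Flow

variable {ι : Type*} [Fintype ι] [DecidableEq ι]

/-! ## Weights -/

/-- `max {0, κ i : i ∈ T}`. -/
noncomputable def Mx (κ : ι → ℝ) (T : Finset ι) : ℝ := T.fold max 0 κ

theorem Mx_empty (κ : ι → ℝ) : Mx κ ∅ = 0 := by simp [Mx]

theorem Mx_nonneg (κ : ι → ℝ) (T : Finset ι) : 0 ≤ Mx κ T := by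
  unfold Mx; rw [Finset.le_fold_max]; exact Or.inl le_rfl

theorem le_Mx (κ : ι → ℝ) {T : Finset ι} {i : ι} (hi : i ∈ T) : κ i ≤ Mx κ T := by
  unfold Mx; rw [Finset.le_fold_max]; exact Or.inr ⟨i, hi, le_rfl⟩

theorem Mx_le {κ : ι → ℝ} {T : Finset ι} {c : ℝ} (h0 : 0 ≤ c) (h : ∀ i ∈ T, κ i ≤ c) : Mx κ T ≤ c := by
  unfold Mx; rw [Finset.fold_max_le]; exact ⟨h0, h⟩

/-- Induction on layers. -/
theorem layer_induction {α : Type*} [Fintype α] {P : (α → ℝ) → Prop} (h0 : P (fun _ => 0))
    (hstep : ∀ f : α → ℝ, (∀ x, 0 ≤ f x) → ∀ t, 0 < t → (∀ x, f x ≠ 0 → t ≤ f x) → (∃ x, f x = t) →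
      P (fun x => if f x = 0 then 0 else f x - t) → P f) :
    ∀ f : α → ℝ, (∀ x, 0 ≤ f x) → P f := by
  have key : ∀ n : ℕ, ∀ f : α → ℝ, (∀ x, 0 ≤ f x) → (univ.filter (fun x => f x ≠ 0)).card = n → P f := by
    intro n
    induction n using Nat.strong_induction_on with
    | _ n ih =>
      intro f hf hn
      by_cases hne : (univ.filter (fun x => f x ≠ 0)).Nonempty
      · obtain ⟨x, hx, hmin⟩ := Finset.exists_min_image _ f hne
        rw [Finset.mem_filter] at hx
        have hpos : 0 < f x := lt_of_le_of_ne (hf x) (Ne.symm hx.2)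
        refine hstep f hf (f x) hpos (fun y hy => hmin y (by simp [hy])) ⟨x, rfl⟩ ?_
        refine ih _ ?_ _ ?_ rfl
        · rw [← hn]
          apply Finset.card_lt_card
          rw [Finset.ssubset_iff_of_subset]
          · exact ⟨x, by simp [hx.2], by simp⟩
          · intro y hy
            rw [Finset.mem_filter] at hy ⊢
            refine ⟨hy.1, fun h => hy.2 ?_⟩
            simp [h]
        · intro y
          by_cases h : f y = 0
          · simp [h]
          · simp only [h, if_false]
            have := hmin y (by simp [h])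
            linarith
      · rw [Finset.not_nonempty_iff_eq_empty] at hne
        have : f = fun _ => 0 := by
          funext y
          by_contra h
          have : y ∈ univ.filter (fun x => f x ≠ 0) := by simp [h]
          rw [hne] at this
          simp at this
        rw [this]; exact h0
  exact fun f hf => key _ f hf rfl

/-- The quadratic form with the weights `M` is a Dirichlet form. -/
def Dir (M : Finset ι → ℝ) : Prop := ∃ J : Finset ι → Finset ι → ℝ, (∀ A B, 0 ≤ J A B) ∧
  ∀ u : Finset ι → ℝ, ∑ T, M T * hat u T ^ 2 = ∑ A, ∑ B, J A B * (u A - u B) ^ 2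

theorem dir_zero : Dir (fun _ : Finset ι => (0 : ℝ)) :=
  ⟨fun _ _ => 0, fun _ _ => le_rfl, fun u => by simp⟩

theorem Dir.add {M M' : Finset ι → ℝ} (h : Dir M) (h' : Dir M') : Dir (fun T => M T + M' T) := by
  obtain ⟨J, hJ, hJ'⟩ := h
  obtain ⟨J', hK, hK'⟩ := h'
  refine ⟨fun A B => J A B + J' A B, fun A B => add_nonneg (hJ A B) (hK A B), fun u => ?_⟩
  simp only [add_mul, Finset.sum_add_distrib, hJ' u, hK' u]

theorem Dir.smul {M : Finset ι → ℝ} (h : Dir M) {t : ℝ} (ht : 0 ≤ t) : Dir (fun T => t * M T) := by
  obtain ⟨J, hJ, hJ'⟩ := h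
  refine ⟨fun A B => t * J A B, fun A B => mul_nonneg ht (hJ A B), fun u => ?_⟩
  simp only [mul_assoc, ← Finset.mul_sum, hJ' u]

theorem dir_notSubset (B : Finset ι) : Dir (fun T => if T ⊆ B then (0 : ℝ) else 1) := by
  refine ⟨fun A A' => kr B A A' / (2 * (2 ^ Fintype.card ι) ^ 2), fun A A' => ?_, fun u => ?_⟩
  · exact div_nonneg (kr_nonneg _ _ _) (by positivity)
  · rw [← energy]
    refine Finset.sum_congr rfl fun T _ => ?_
    by_cases h : T ⊆ B <;> simp [h]

theorem dir_Mx (κ : ι → ℝ) (hκ : ∀ i, 0 ≤ κ i) : Dir (Mx κ) := by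
  refine layer_induction (P := fun κ => Dir (Mx κ)) ?_ ?_ κ hκ
  · have : Mx (fun _ : ι => (0 : ℝ)) = fun _ => 0 := by
      funext T
      exact le_antisymm (Mx_le le_rfl fun _ _ => le_rfl) (Mx_nonneg _ _)
    rw [this]; exact dir_zero
  · intro f hf t ht hmin _ hP
    have : Mx f = fun T => t * (if T ⊆ univ.filter (fun i => f i = 0) then (0 : ℝ) else 1) +
        Mx (fun x => if f x = 0 then 0 else f x - t) T := by
      funext T
      split_ifs with hT
      · have h1 : ∀ i ∈ T, f i = 0 := fun i hi => by simpa using hT hi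
        have h2 : Mx f T = 0 := le_antisymm (Mx_le le_rfl fun i hi => (h1 i hi).le) (Mx_nonneg _ _)
        have h3 : Mx (fun x => if f x = 0 then 0 else f x - t) T = 0 :=
          le_antisymm (Mx_le le_rfl fun i hi => by simp [h1 i hi]) (Mx_nonneg _ _)
        rw [h2, h3]; ring
      · obtain ⟨i, hi, hi'⟩ : ∃ i ∈ T, f i ≠ 0 := by
          by_contra hc
          push Not at hc
          exact hT fun i hi => by simpa using hc i hi
        apply le_antisymm
        · refine Mx_le (by have := Mx_nonneg (fun x => if f x = 0 then 0 else f x - t) T; linarith)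
            fun k hk => ?_
          have h1 := le_Mx (fun x => if f x = 0 then 0 else f x - t) hk
          by_cases hk0 : f k = 0
          · have := Mx_nonneg (fun x => if f x = 0 then 0 else f x - t) T
            rw [hk0]; linarith
          · simp only [hk0, if_false] at h1
            linarith
        · have h1 : t ≤ Mx f T := (hmin i hi').trans (le_Mx f hi)
          have h2 : Mx (fun x => if f x = 0 then 0 else f x - t) T ≤ Mx f T - t := by
            refine Mx_le (by linarith) fun k hk => ?_
            have h3 := le_Mx f hk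
            by_cases hk0 : f k = 0
            · simp only [hk0, if_true]; linarith
            · simp only [hk0, if_false]; linarith
          linarith
    rw [this]
    exact ((dir_notSubset _).smul ht.le).add hP

/-! ## Covariance -/

/-- The covariance. -/
noncomputable def cov (f K : Finset ι → ℝ) : ℝ := av (fun A => f A * K A) - av f * av K

/-- The weighted energy. -/
noncomputable def En (κ : ι → ℝ) (f : Finset ι → ℝ) : ℝ := ∑ T, Mx κ T * hat f T ^ 2

/-- The first level. -/
noncomputable def kap (K : Finset ι → ℝ) (i : ι) : ℝ := hat K {i}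

theorem kap_eq (K : Finset ι → ℝ) (i : ι) :
    kap K i = av (fun A => (K (insert i A) - K (A.erase i)) / 2) := by
  unfold kap
  rw [hat_of_mem (Finset.mem_singleton_self i)]
  unfold hat
  refine av_congr fun A => ?_
  simp [ch]

theorem kap_nonneg {K : Finset ι → ℝ} (hK : Monotone K) (i : ι) : 0 ≤ kap K i := by
  rw [kap_eq]
  refine av_nonneg fun A => ?_
  have := hK ((Finset.erase_subset i A).trans (Finset.subset_insert i A))
  linarith

theorem cov_layer (w f' K : Finset ι → ℝ) (t : ℝ) :
    cov (fun A => t * w A + f' A) K = t * cov w K + cov f' K := by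
  unfold cov
  have h1 : av (fun A => (t * w A + f' A) * K A) = t * av (fun A => w A * K A) + av (fun A => f' A * K A) := by
    rw [← av_mul_left, ← av_add]; exact av_congr fun A => by ring
  have h2 : av (fun A => t * w A + f' A) = t * av w + av f' := by
    rw [← av_mul_left, ← av_add]
  rw [h1, h2]; ring

/-- From indicators to all nonnegative increasing functions. -/
theorem layers {S : Finset ι} {K : Finset ι → ℝ} {κ : ι → ℝ} (hκ : ∀ i, 0 ≤ κ i)
    (h : ∀ w : Finset ι → ℝ, (∀ A, w A = 0 ∨ w A = 1) → Monotone w → Dep S w → En κ w ≤ cov w K)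
    (u : Finset ι → ℝ) (hu0 : ∀ A, 0 ≤ u A) (hu : Monotone u) (hS : Dep S u) :
    En κ u ≤ cov (fun A => u A ^ 2) K := by
  obtain ⟨J, hJ, hJ'⟩ := dir_Mx κ hκ
  have hl : ∀ f : Finset ι → ℝ, (∀ A, 0 ≤ f A) → (Monotone f → Dep S f →
      ∑ A, ∑ B, J A B * |f A - f B| ≤ cov f K) := by
    refine layer_induction ?_ ?_
    · intro _ _
      unfold cov
      simp [av_const]
    · intro f hf t ht hmin _ ih hfm hfS
      have hw1 : ∀ A, (if f A = 0 then (0 : ℝ) else 1) = 0 ∨ (if f A = 0 then (0 : ℝ) else 1) = 1 := by
        intro A; split_ifs <;> simp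
      have hmono0 : ∀ A B, A ≤ B → f A ≠ 0 → f B ≠ 0 := by
        intro A B hAB hA hB
        have h1 := hfm hAB
        rw [hB] at h1
        exact hA (le_antisymm h1 (hf A))
      have hwm : Monotone (fun A => if f A = 0 then (0 : ℝ) else 1) := by
        intro A B hAB
        by_cases hA : f A = 0
        · simp only [hA, if_true]; split_ifs <;> norm_num
        · simp only [hA, hmono0 A B hAB hA, if_false]; exact le_rfl
      have hwS : Dep S (fun A => if f A = 0 then (0 : ℝ) else 1) := by
        intro j hj A; simp only [hfS j hj A]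
      have hfm' : Monotone (fun A => if f A = 0 then (0 : ℝ) else f A - t) := by
        intro A B hAB
        by_cases hA : f A = 0
        · simp only [hA, if_true]
          split_ifs with hB
          · exact le_rfl
          · have := hmin B hB; linarith
        · simp only [hA, hmono0 A B hAB hA, if_false]
          have := hfm hAB; linarith
      have hfS' : Dep S (fun A => if f A = 0 then (0 : ℝ) else f A - t) := by
        intro j hj A; simp only [hfS j hj A]
      have ih' := ih hfm' hfS'
      have hw := h _ hw1 hwm hwS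
      have e1 : ∀ A B, J A B * |f A - f B| =
          t * (J A B * ((if f A = 0 then (0 : ℝ) else 1) - (if f B = 0 then (0 : ℝ) else 1)) ^ 2) +
          J A B * |(if f A = 0 then (0 : ℝ) else f A - t) - (if f B = 0 then (0 : ℝ) else f B - t)| := by
        intro A B
        by_cases hA : f A = 0 <;> by_cases hB : f B = 0
        · simp [hA, hB]
        · have h1 := hmin B hB
          simp only [hA, hB, if_true, if_false]
          rw [abs_of_nonpos (by have := hf B; linarith), abs_of_nonpos (by linarith)]
          ring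
        · have h1 := hmin A hA
          simp only [hA, hB, if_true, if_false]
          rw [abs_of_nonneg (by have := hf A; linarith), abs_of_nonneg (by linarith)]
          ring
        · simp only [hA, hB, if_false]
          rw [show f A - t - (f B - t) = f A - f B by ring]
          ring
      have e2 : cov f K = t * cov (fun A => if f A = 0 then (0 : ℝ) else 1) K +
          cov (fun A => if f A = 0 then (0 : ℝ) else f A - t) K := by
        rw [← cov_layer]
        congr 1
        funext A
        by_cases hA : f A = 0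
        · simp [hA]
        · simp [hA]
      have e3 : ∑ A, ∑ B, J A B * |f A - f B| =
          t * (∑ A, ∑ B, J A B * ((if f A = 0 then (0 : ℝ) else 1) - (if f B = 0 then (0 : ℝ) else 1)) ^ 2) +
          ∑ A, ∑ B, J A B * |(if f A = 0 then (0 : ℝ) else f A - t) - (if f B = 0 then (0 : ℝ) else f B - t)| := by
        simp only [Finset.mul_sum]
        rw [← Finset.sum_add_distrib]
        refine Finset.sum_congr rfl fun A _ => ?_
        rw [← Finset.sum_add_distrib]
        exact Finset.sum_congr rfl fun B _ => e1 A B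
      rw [e3, e2]
      unfold En at hw
      rw [hJ'] at hw
      have := mul_le_mul_of_nonneg_left hw ht.le
      linarith
  have h1 : En κ u ≤ ∑ A, ∑ B, J A B * |u A ^ 2 - u B ^ 2| := by
    unfold En
    rw [hJ']
    refine Finset.sum_le_sum fun A _ => Finset.sum_le_sum fun B _ => ?_
    refine mul_le_mul_of_nonneg_left ?_ (hJ A B)
    have e : u A ^ 2 - u B ^ 2 = (u A - u B) * (u A + u B) := by ring
    rw [e, abs_mul, ← sq_abs, sq]
    refine mul_le_mul_of_nonneg_left ?_ (abs_nonneg _)
    rw [abs_of_nonneg (add_nonneg (hu0 A) (hu0 B))]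
    rw [abs_le]
    constructor <;> linarith [hu0 A, hu0 B]
  refine h1.trans (hl (fun A => u A ^ 2) (fun A => sq_nonneg _) ?_ ?_)
  · intro A B hAB
    exact pow_le_pow_left₀ (hu0 A) (hu hAB) 2
  · intro j hj A
    simp only [hS j hj A]

/-! ## The induction step -/

theorem monotone_insert {f : Finset ι → ℝ} (hf : Monotone f) (j : ι) : Monotone (fun A => f (insert j A)) :=
  fun _ _ h => hf (Finset.insert_subset_insert j h)

theorem monotone_erase {f : Finset ι → ℝ} (hf : Monotone f) (j : ι) : Monotone (fun A : Finset ι => f (A.erase j)) :=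
  fun _ _ h => hf (Finset.erase_subset_erase j h)

theorem dep_insert {S : Finset ι} {f : Finset ι → ℝ} (hf : Dep S f) (j : ι) :
    Dep (S.erase j) (fun A => f (insert j A)) := by
  intro i hi A
  by_cases hij : i = j
  · subst hij; simp
  · have hiS : i ∉ S := fun h => hi (Finset.mem_erase.2 ⟨hij, h⟩)
    show f (insert j (insert i A)) = f (insert j A)
    rw [Finset.insert_comm, hf i hiS]

theorem dep_erase {S : Finset ι} {f : Finset ι → ℝ} (hf : Dep S f) (j : ι) :
    Dep (S.erase j) (fun A : Finset ι => f (A.erase j)) := by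
  intro i hi A
  by_cases hij : i = j
  · subst hij
    show f ((insert i A).erase i) = f (A.erase i)
    congr 1
    ext x; simp only [Finset.mem_erase, Finset.mem_insert]; tauto
  · have hiS : i ∉ S := fun h => hi (Finset.mem_erase.2 ⟨hij, h⟩)
    show f ((insert i A).erase j) = f (A.erase j)
    rw [Finset.erase_insert_of_ne hij, hf i hiS]

theorem dep_compl {S : Finset ι} {f : Finset ι → ℝ} (hf : Dep S f) : Dep S (fun A => f Aᶜ) := by
  intro i hi A
  show f (insert i A)ᶜ = f Aᶜ
  have : (insert i A)ᶜ = Aᶜ.erase i := by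
    ext x; simp only [Finset.mem_compl, Finset.mem_insert, Finset.mem_erase]; tauto
  rw [this, hf.erase hi]

theorem kap_avg (K : Finset ι → ℝ) {i j : ι} (hij : i ≠ j) :
    kap K i = (kap (fun A : Finset ι => K (insert j A)) i + kap (fun A : Finset ι => K (A.erase j)) i) / 2 := by
  unfold kap
  have hj : j ∉ ({i} : Finset ι) := by simpa using hij.symm
  rw [hat_of_notMem hj]
  unfold hat
  rw [← av_add, div_eq_mul_inv, ← av_mul_right]
  exact av_congr fun A => by ring

theorem En_congr_sq {κ : ι → ℝ} {f g : Finset ι → ℝ} (h : ∀ T : Finset ι, T.Nonempty → hat f T ^ 2 = hat g T ^ 2) :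
    En κ f = En κ g := by
  unfold En
  refine Finset.sum_congr rfl fun T _ => ?_
  rcases T.eq_empty_or_nonempty with rfl | hT
  · rw [Mx_empty]; ring
  · rw [h T hT]

theorem neg_one_pow_sq (n : ℕ) : ((-1 : ℝ) ^ n) ^ 2 = 1 := by
  rw [← pow_mul, mul_comm, pow_mul]; norm_num

/-- The reflected form of the inequality. -/
theorem reflected {S : Finset ι}
    (ih : ∀ u K : Finset ι → ℝ, (∀ A, 0 ≤ u A) → Monotone u → Monotone K → Dep S u → Dep S K →
      En (kap K) u ≤ cov (fun A => u A ^ 2) K)
    {p K : Finset ι → ℝ} (hp1 : ∀ A, p A ≤ 1) (hp : Monotone p) (hK : Monotone K) (hpS : Dep S p)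
    (hKS : Dep S K) : En (kap K) p ≤ cov (fun A => 2 * p A - p A ^ 2) K := by
  have h := ih (fun A => 1 - p Aᶜ) (fun A => - K Aᶜ) (fun A => by linarith [hp1 Aᶜ])
    (fun A B hAB => by
      have := hp (Finset.compl_subset_compl.2 hAB)
      show 1 - p Aᶜ ≤ 1 - p Bᶜ
      linarith)
    (fun A B hAB => by
      have := hK (Finset.compl_subset_compl.2 hAB)
      show - K Aᶜ ≤ - K Bᶜ
      linarith)
    (by
      intro j hj A
      show 1 - p (insert j A)ᶜ = 1 - p Aᶜ
      have h : p (insert j A)ᶜ = p Aᶜ := dep_compl hpS j hj A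
      rw [h])
    (by
      intro j hj A
      show - K (insert j A)ᶜ = - K Aᶜ
      have h : K (insert j A)ᶜ = K Aᶜ := dep_compl hKS j hj A
      rw [h])
  have h1 : kap (fun A => - K Aᶜ) = kap K := by
    funext i
    unfold kap
    rw [hat_neg, hat_compl]; simp
  have h2 : En (kap K) (fun A => 1 - p Aᶜ) = En (kap K) p := by
    refine En_congr_sq fun T hT => ?_
    rw [hat_sub, hat_const 1 hT, hat_compl]
    rw [zero_sub, neg_sq, mul_pow, neg_one_pow_sq, one_mul]
  have h3 : cov (fun A => (1 - p Aᶜ) ^ 2) (fun A => - K Aᶜ) = cov (fun A => 2 * p A - p A ^ 2) K := by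
    unfold cov
    have e1 : av (fun A => (1 - p Aᶜ) ^ 2 * - K Aᶜ) =
        av (fun A => (2 * p A - p A ^ 2) * K A) - av K := by
      rw [← av_compl, ← av_sub]
      refine av_congr fun A => ?_
      rw [compl_compl]; ring
    have e2 : av (fun A => (1 - p Aᶜ) ^ 2) = 1 - av (fun A => 2 * p A - p A ^ 2) := by
      rw [← av_compl]
      have : av (fun A : Finset ι => (1 : ℝ) - (2 * p A - p A ^ 2)) = 1 - av (fun A => 2 * p A - p A ^ 2) := by
        rw [av_sub, av_const]
      rw [← this]
      refine av_congr fun A => ?_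
      rw [compl_compl]; ring
    have e3 : av (fun A => - K Aᶜ) = - av K := by
      rw [av_neg, av_compl]
    rw [e1, e2, e3]; ring
  rw [h1, h2, h3] at h
  exact h

theorem hat_sq_sum_notMem (f : Finset ι → ℝ) (j : ι) (g : Finset ι → ℝ)
    (hg : g = fun A => (f (insert j A) + f (A.erase j)) / 2) (M : Finset ι → ℝ) :
    ∑ T ∈ univ.filter (fun T => j ∉ T), M T * hat f T ^ 2 = ∑ T, M T * hat g T ^ 2 := by
  rw [Finset.sum_filter]
  refine Finset.sum_congr rfl fun T _ => ?_
  by_cases hj : j ∈ T
  · have hd : Dep (univ.erase j) g := by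
      intro i hi A
      have : i = j := by simpa using hi
      subst this
      subst hg
      show (f (insert i (insert i A)) + f ((insert i A).erase i)) / 2 = _
      rw [Finset.insert_idem]
      congr 3
      ext x; simp only [Finset.mem_erase, Finset.mem_insert]; tauto
    have : hat g T = 0 := hd.hat_eq_zero hj (Finset.notMem_erase j univ)
    rw [this]; simp [hj]
  · rw [if_pos hj, hat_of_notMem hj f, hg]

/-- The step for indicators. -/
theorem step_ind {S : Finset ι} {j : ι}
    (ih : ∀ u K : Finset ι → ℝ, (∀ A, 0 ≤ u A) → Monotone u → Monotone K → Dep (S.erase j) u →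
      Dep (S.erase j) K → En (kap K) u ≤ cov (fun A => u A ^ 2) K)
    {w K : Finset ι → ℝ} (hw : ∀ A, w A = 0 ∨ w A = 1) (hwm : Monotone w) (hK : Monotone K)
    (hwS : Dep S w) (hKS : Dep S K) (hmax : ∀ i, kap K i ≤ kap K j) : En (kap K) w ≤ cov w K := by
  set p : Finset ι → ℝ := fun A => (w (insert j A) + w (A.erase j)) / 2 with hp
  set Kp : Finset ι → ℝ := fun A => K (insert j A) with hKp
  set Km : Finset ι → ℝ := fun A => K (A.erase j) with hKm
  have hle : ∀ A : Finset ι, A.erase j ≤ insert j A := fun A =>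
    (Finset.erase_subset j A).trans (Finset.subset_insert j A)
  have hw01 : ∀ A, 0 ≤ w A ∧ w A ≤ 1 := by
    intro A; rcases hw A with h | h <;> rw [h] <;> norm_num
  have hp0 : ∀ A, 0 ≤ p A := fun A => by
    have h1 := (hw01 (insert j A)).1
    have h2 := (hw01 (A.erase j)).1
    show 0 ≤ (w (insert j A) + w (A.erase j)) / 2
    linarith
  have hp1 : ∀ A, p A ≤ 1 := fun A => by
    have h1 := (hw01 (insert j A)).2
    have h2 := (hw01 (A.erase j)).2
    show (w (insert j A) + w (A.erase j)) / 2 ≤ 1
    linarith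
  have hpm : Monotone p := fun A B hAB => by
    have h1 := monotone_insert hwm j hAB
    have h2 := monotone_erase hwm j hAB
    have h1 : w (insert j A) ≤ w (insert j B) := h1
    have h2 : w (A.erase j) ≤ w (B.erase j) := h2
    show (w (insert j A) + w (A.erase j)) / 2 ≤ (w (insert j B) + w (B.erase j)) / 2
    linarith
  have hpS : Dep (S.erase j) p := fun i hi A => by
    have h1 : w (insert j (insert i A)) = w (insert j A) := dep_insert hwS j i hi A
    have h2 : w ((insert i A).erase j) = w (A.erase j) := dep_erase hwS j i hi A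
    show (w (insert j (insert i A)) + w ((insert i A).erase j)) / 2 = (w (insert j A) + w (A.erase j)) / 2
    rw [h1, h2]
  have hKpm : Monotone Kp := monotone_insert hK j
  have hKmm : Monotone Km := monotone_erase hK j
  have hKpS : Dep (S.erase j) Kp := dep_insert hKS j
  have hKmS : Dep (S.erase j) Km := dep_erase hKS j
  have hA := reflected ih hp1 hpm hKpm hpS hKpS
  have hB := ih p Km hp0 hpm hKmm hpS hKmS
  -- the covariance
  have c1 : av (fun A => w A * K A) =
      av (fun A => (2 * p A - p A ^ 2) * Kp A) / 2 + av (fun A => p A ^ 2 * Km A) / 2 +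
        av (fun A => (p A - p A ^ 2) * (Kp A - Km A)) / 2 := by
    rw [av_pm j]
    have : ∀ A : Finset ι, (w (insert j A) * K (insert j A) + w (A.erase j) * K (A.erase j)) / 2 =
        ((2 * p A - p A ^ 2) * Kp A * (1 / 2) + p A ^ 2 * Km A * (1 / 2)) +
          (p A - p A ^ 2) * (Kp A - Km A) * (1 / 2) := by
      intro A
      have h3 := hwm (hle A)
      show _ = ((2 * ((w (insert j A) + w (A.erase j)) / 2) - ((w (insert j A) + w (A.erase j)) / 2) ^ 2) *
        K (insert j A) * (1 / 2) + ((w (insert j A) + w (A.erase j)) / 2) ^ 2 * K (A.erase j) * (1 / 2)) +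
          ((w (insert j A) + w (A.erase j)) / 2 - ((w (insert j A) + w (A.erase j)) / 2) ^ 2) *
            (K (insert j A) - K (A.erase j)) * (1 / 2)
      rcases hw (insert j A) with h1 | h1 <;> rcases hw (A.erase j) with h2 | h2
      · rw [h1, h2]; ring
      · rw [h1, h2] at h3; norm_num at h3
      · rw [h1, h2]; ring
      · rw [h1, h2]; ring
    rw [av_congr this, av_add, av_add, av_mul_right, av_mul_right, av_mul_right]
    ring
  have c2 : av w = av p := av_pm j w
  have c3 : av K = av Kp / 2 + av Km / 2 := by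
    rw [av_pm j]
    have : ∀ A : Finset ι, (K (insert j A) + K (A.erase j)) / 2 = Kp A * (1 / 2) + Km A * (1 / 2) := by
      intro A
      show _ = K (insert j A) * (1 / 2) + K (A.erase j) * (1 / 2)
      ring
    rw [av_congr this, av_add, av_mul_right, av_mul_right]; ring
  have c4 : av (fun A => 2 * p A - p A ^ 2) = 2 * av p - av (fun A => p A ^ 2) := by
    rw [av_sub, av_mul_left]
  have c5 : 0 ≤ av (fun A => (p A - p A ^ 2) * (Kp A - Km A)) := by
    refine av_nonneg fun A => ?_
    have h1 : K (A.erase j) ≤ K (insert j A) := hK (hle A)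
    have h2 : 0 ≤ Kp A - Km A := by
      show 0 ≤ K (insert j A) - K (A.erase j)
      linarith
    refine mul_nonneg ?_ h2
    nlinarith [hp0 A, hp1 A]
  -- the energy
  have hkj : kap K j = (av Kp - av Km) / 2 := by
    rw [kap_eq]
    have : ∀ A : Finset ι, (K (insert j A) - K (A.erase j)) / 2 = Kp A * (1 / 2) - Km A * (1 / 2) := by
      intro A
      show _ = K (insert j A) * (1 / 2) - K (A.erase j) * (1 / 2)
      ring
    rw [av_congr this, av_sub, av_mul_right, av_mul_right]; ring
  have hsplit : ∀ g : Finset ι → ℝ, ∑ T, g T =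
      ∑ T ∈ univ.filter (fun T => j ∉ T), g T + ∑ T ∈ univ.filter (fun T => j ∈ T), g T := by
    intro g
    rw [add_comm, Finset.sum_filter_add_sum_filter_not]
  have e1 : ∑ T ∈ univ.filter (fun T => j ∈ T), hat w T ^ 2 = av p - av (fun A => p A ^ 2) := by
    have h1 := hsplit (fun T => hat w T ^ 2)
    have h2 := hat_sq_sum_notMem w j p hp (fun _ => 1)
    simp only [one_mul] at h2
    rw [h2, parseval, parseval] at h1
    have h3 : av (fun A => w A ^ 2) = av w := by
      refine av_congr fun A => ?_
      rcases hw A with h | h <;> rw [h] <;> norm_num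
    rw [h3, c2] at h1
    linarith
  have e2 : ∑ T ∈ univ.filter (fun T => j ∈ T), Mx (kap K) T * hat w T ^ 2 ≤
      kap K j * (av p - av (fun A => p A ^ 2)) := by
    rw [← e1, Finset.mul_sum]
    refine Finset.sum_le_sum fun T _ => ?_
    exact mul_le_mul_of_nonneg_right (Mx_le (kap_nonneg hK j) fun i _ => hmax i) (sq_nonneg _)
  have e3 : ∑ T ∈ univ.filter (fun T => j ∉ T), Mx (kap K) T * hat w T ^ 2 ≤
      (En (kap Kp) p + En (kap Km) p) / 2 := by
    have h1 : ∑ T ∈ univ.filter (fun T => j ∉ T), Mx (kap K) T * hat w T ^ 2 ≤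
        ∑ T ∈ univ.filter (fun T => j ∉ T), ((Mx (kap Kp) T + Mx (kap Km) T) / 2) * hat w T ^ 2 := by
      refine Finset.sum_le_sum fun T hT => ?_
      refine mul_le_mul_of_nonneg_right ?_ (sq_nonneg _)
      have hjT : j ∉ T := (Finset.mem_filter.1 hT).2
      have n1 := Mx_nonneg (kap Kp) T
      have n2 := Mx_nonneg (kap Km) T
      refine Mx_le (by linarith) fun i hi => ?_
      have hij : i ≠ j := fun h => hjT (h ▸ hi)
      rw [kap_avg K hij]
      have m1 := le_Mx (kap Kp) hi
      have m2 := le_Mx (kap Km) hi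
      linarith
    refine h1.trans (le_of_eq ?_)
    rw [hat_sq_sum_notMem w j p hp]
    unfold En
    rw [← Finset.sum_add_distrib, Finset.sum_div]
    exact Finset.sum_congr rfl fun T _ => by ring
  have e4 : En (kap K) w ≤ (En (kap Kp) p + En (kap Km) p) / 2 +
      kap K j * (av p - av (fun A => p A ^ 2)) := by
    have := hsplit (fun T => Mx (kap K) T * hat w T ^ 2)
    unfold En at *
    linarith
  unfold cov at hA hB ⊢
  rw [c1, c2, c3]
  rw [c4] at hA
  rw [hkj] at e4
  nlinarith

/-- The main inequality. -/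
theorem main_dep (n : ℕ) : ∀ S : Finset ι, S.card = n → ∀ u K : Finset ι → ℝ, (∀ A, 0 ≤ u A) → Monotone u →
    Monotone K → Dep S u → Dep S K → En (kap K) u ≤ cov (fun A => u A ^ 2) K := by
  induction n with
  | zero =>
    intro S hS u K hu0 hu hK huS hKS
    rw [Finset.card_eq_zero] at hS
    subst hS
    have hconst : ∀ f : Finset ι → ℝ, Dep ∅ f → ∀ A, f A = f ∅ := by
      intro f hf A
      induction A using Finset.induction_on with
      | empty => rfl
      | insert a s ha ih => rw [hf a (Finset.notMem_empty a), ih]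
    have h1 : En (kap K) u = 0 := by
      unfold En
      refine Finset.sum_eq_zero fun T _ => ?_
      rcases T.eq_empty_or_nonempty with rfl | ⟨i, hi⟩
      · rw [Mx_empty]; ring
      · rw [huS.hat_eq_zero hi (Finset.notMem_empty i)]; ring
    have h2 : cov (fun A => u A ^ 2) K = 0 := by
      unfold cov
      have e1 : ∀ A, u A ^ 2 * K A = u ∅ ^ 2 * K ∅ := fun A => by rw [hconst u huS, hconst K hKS]
      have e2 : ∀ A, u A ^ 2 = u ∅ ^ 2 := fun A => by rw [hconst u huS]
      have e3 : ∀ A, K A = K ∅ := hconst K hKS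
      rw [av_congr e1, av_congr e2, av_congr e3, av_const, av_const, av_const]; ring
    rw [h1, h2]
  | succ n ih =>
    intro S hS u K hu0 hu hK huS hKS
    refine layers (kap_nonneg hK) (fun w hw hwm hwS => ?_) u hu0 hu huS
    have hne : (S : Finset ι).Nonempty := by rw [← Finset.card_pos]; omega
    obtain ⟨j, hjS, hj⟩ := Finset.exists_max_image S (kap K) hne
    refine step_ind (j := j) (ih (S.erase j) (by rw [Finset.card_erase_of_mem hjS]; omega)) hw hwm hK hwS hKS ?_
    intro i
    by_cases hi : i ∈ S
    · exact hj i hi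
    · have : kap K i = 0 := hKS.hat_eq_zero (Finset.mem_singleton_self i) hi
      rw [this]; exact kap_nonneg hK j

theorem main (u K : Finset ι → ℝ) (hu0 : ∀ A, 0 ≤ u A) (hu : Monotone u) (hK : Monotone K) :
    En (kap K) u ≤ cov (fun A => u A ^ 2) K :=
  main_dep _ univ rfl u K hu0 hu hK (fun j hj => absurd (Finset.mem_univ j) hj)
    (fun j hj => absurd (Finset.mem_univ j) hj)

end Pool.Agent.H60.Flow
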